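import Pool.Agent.Y913.Nb.Ratio

/-!
For all `n`, `δ`, `ε > 0` there are `K`, `C > 0` such that for every `Y ≥ 1` the rational numbers
`x ^ 3 / y ^ 2 ≠ 1`, where `x` and `y` are products of powers of `n` positive integers `≤ Y` with
`x ≥ Y ^ K` and `|x ^ 3 - y ^ 2| ≤ x ^ (3 - δ)`, are finite in number, and at most `C * Y ^ ε`.
-/

set_option autoImplicit false

namespace Pool.Agent.Results.MP_e734ed_nt.FewBasesRatios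

/-- `m` is a product of powers of `n` positive integers `≤ Y` -/
def PowerProduct (n : ℕ) (Y : ℝ) (m : ℕ) : Prop :=
  ∃ b e : Fin n → ℕ, (∀ i, 0 < b i ∧ (b i : ℝ) ≤ Y) ∧ m = ∏ i, b i ^ e i

/-- the rational numbers `x ^ 3 / y ^ 2 ≠ 1` with `x`, `y` products of powers of `n` positive
integers `≤ Y`, `x ≥ Y ^ K` and `|x ^ 3 - y ^ 2| ≤ x ^ (3 - δ)` -/
def closeRatios (n : ℕ) (δ K Y : ℝ) : Set ℚ :=
  {r | ∃ x y : ℕ, PowerProduct n Y x ∧ PowerProduct n Y y ∧ Y ^ K ≤ (x : ℝ) ∧ x ^ 3 ≠ y ^ 2 ∧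
    |(x : ℝ) ^ 3 - (y : ℝ) ^ 2| ≤ (x : ℝ) ^ (3 - δ) ∧ r = (x : ℚ) ^ 3 / (y : ℚ) ^ 2}

/-- **Main theorem.** -/
theorem result (n : ℕ) (δ ε : ℝ) (hδ : 0 < δ) (hε : 0 < ε) : ∃ K C : ℝ, 0 < K ∧ 0 < C ∧
    ∀ Y : ℝ, 1 ≤ Y → (closeRatios n δ K Y).Finite ∧
      ((closeRatios n δ K Y).ncard : ℝ) ≤ C * Y ^ ε :=
  Pool.Agent.Y913.Nb.hall_finite n δ ε hδ hε

end Pool.Agent.Results.MP_e734ed_nt.FewBasesRatios
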