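import Mathlib
import Pool.Agent.Y724.T4.ABQ

set_option autoImplicit false

/-!
# The weak form of Hall's conjecture for all coprime pairs of sparse integers

Let `S` be a finite set of primes. For coprime integers `x`, `y` with `y ^ 2 ≠ x ^ 3` which are sums of
at most `l` numbers `k u`, `u` an `S`-unit and `k` an integer of absolute value at most
`B max(|x|, |y|) ^ δ`, we prove `|y ^ 2 - x ^ 3| > C |x| ^ (1 / 2 - ε)` and
`|y ^ 2 - x ^ 3| > C |y| ^ (1 / 3 - ε)`.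
-/

namespace Pool.Agent.Results.MP_e734ed_nt.SparsePairs

/-- `u` is an `S`-unit: plus or minus a product of powers (with integer exponents) of the primes in
`S` -/
def IsSUnit (S : Finset ℕ) (u : ℚ) : Prop :=
  ∃ (σ : ℤ) (e : ℕ → ℤ), (σ = 1 ∨ σ = -1) ∧ u = σ * ∏ p ∈ S, (p : ℚ) ^ e p

/-- the rational number `z` is a sum of `l` `S`-units with integer coefficients of absolute value at
most `R` -/
def IsSparse (S : Finset ℕ) (l : ℕ) (R : ℝ) (z : ℚ) : Prop :=
  ∃ (u : Fin l → ℚ) (k : Fin l → ℤ), (∀ j, IsSUnit S (u j)) ∧ (∀ j, |(k j : ℝ)| ≤ R) ∧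
    z = ∑ j, u j * k j

theorem isSUnit_one (S : Finset ℕ) : IsSUnit S 1 := ⟨1, fun _ => 0, Or.inl rfl, by simp⟩

theorem IsSUnit.mul {S : Finset ℕ} (hS : ∀ p ∈ S, p.Prime) {u v : ℚ} (hu : IsSUnit S u)
    (hv : IsSUnit S v) : IsSUnit S (u * v) := by
  obtain ⟨σ, e, hσ, rfl⟩ := hu
  obtain ⟨τ, f, hτ, rfl⟩ := hv
  refine ⟨σ * τ, fun p => e p + f p, ?_, ?_⟩
  · rcases hσ with rfl | rfl <;> rcases hτ with rfl | rfl <;> simp
  · have h : ∏ p ∈ S, (p : ℚ) ^ (e p + f p) =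
        (∏ p ∈ S, (p : ℚ) ^ e p) * ∏ p ∈ S, (p : ℚ) ^ f p := by
      rw [← Finset.prod_mul_distrib]
      refine Finset.prod_congr rfl fun p hp => ?_
      exact zpow_add₀ (by exact_mod_cast (hS p hp).ne_zero) _ _
    rw [h]
    push_cast
    ring

/-- sums of terms indexed by a small type -/
theorem of_fintype {S : Finset ℕ} {ι : Type} [Fintype ι] {l : ℕ} (hl : Fintype.card ι ≤ l) {R : ℝ}
    (hR : 0 ≤ R) (u : ι → ℚ) (k : ι → ℤ) (hu : ∀ j, IsSUnit S (u j)) (hk : ∀ j, |(k j : ℝ)| ≤ R)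
    {z : ℚ} (hz : z = ∑ j, u j * k j) : IsSparse S l R z := by
  classical
  obtain ⟨f⟩ : Nonempty (ι ↪ Fin l) := Function.Embedding.nonempty_of_card_le (by simpa using hl)
  refine ⟨fun j => if h : ∃ i, f i = j then u h.choose else 1,
    fun j => if h : ∃ i, f i = j then k h.choose else 0, fun j => ?_, fun j => ?_, ?_⟩
  · dsimp only
    split_ifs with h
    · exact hu _
    · exact isSUnit_one S
  · dsimp only
    split_ifs with h
    · exact hk _
    · simpa using hR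
  · rw [hz]
    refine Fintype.sum_of_injective f f.injective _ _ ?_ ?_
    · intro j hj
      have h : ¬ ∃ i, f i = j := fun ⟨i, hi⟩ => hj ⟨i, hi⟩
      simp [h]
    · intro i
      have h : ∃ i', f i' = f i := ⟨i, rfl⟩
      have h2 : h.choose = i := f.injective h.choose_spec
      simp only [dif_pos h, h2]

theorem IsSparse.mono {S : Finset ℕ} {l l' : ℕ} {R R' : ℝ} {z : ℚ} (h : IsSparse S l R z)
    (hl : l ≤ l') (hR : R ≤ R') (hR0 : 0 ≤ R') : IsSparse S l' R' z := by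
  obtain ⟨u, k, hu, hk, hz⟩ := h
  exact of_fintype (by simpa using hl) hR0 u k hu (fun j => (hk j).trans hR) hz

theorem IsSparse.add {S : Finset ℕ} {l l' : ℕ} {R : ℝ} (hR : 0 ≤ R) {z z' : ℚ}
    (h : IsSparse S l R z) (h' : IsSparse S l' R z') : IsSparse S (l + l') R (z + z') := by
  obtain ⟨u, k, hu, hk, hz⟩ := h
  obtain ⟨u', k', hu', hk', hz'⟩ := h'
  refine of_fintype (ι := Fin l ⊕ Fin l') (by simp) hR (Sum.elim u u') (Sum.elim k k') ?_ ?_ ?_
  · rintro (j | j)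
    · exact hu j
    · exact hu' j
  · rintro (j | j)
    · exact hk j
    · exact hk' j
  · rw [hz, hz', Fintype.sum_sum_type]
    rfl

theorem IsSparse.neg {S : Finset ℕ} {l : ℕ} {R : ℝ} {z : ℚ}
    (h : IsSparse S l R z) : IsSparse S l R (-z) := by
  obtain ⟨u, k, hu, hk, hz⟩ := h
  refine ⟨u, fun j => -k j, hu, fun j => by simpa using hk j, ?_⟩
  rw [hz, ← Finset.sum_neg_distrib]
  exact Finset.sum_congr rfl fun j _ => by push_cast; ring

theorem IsSparse.mul {S : Finset ℕ} (hS : ∀ p ∈ S, p.Prime) {l l' : ℕ} {R R' : ℝ} (hR : 0 ≤ R)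
    (hR' : 0 ≤ R') {z z' : ℚ} (h : IsSparse S l R z) (h' : IsSparse S l' R' z') :
    IsSparse S (l * l') (R * R') (z * z') := by
  obtain ⟨u, k, hu, hk, hz⟩ := h
  obtain ⟨u', k', hu', hk', hz'⟩ := h'
  refine of_fintype (ι := Fin l × Fin l') (by simp) (mul_nonneg hR hR')
    (fun j => u j.1 * u' j.2) (fun j => k j.1 * k' j.2) ?_ ?_ ?_
  · exact fun j => (hu _).mul hS (hu' _)
  · intro j
    push_cast
    rw [abs_mul]
    exact mul_le_mul (hk _) (hk' _) (abs_nonneg _) hR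
  · rw [hz, hz', Finset.sum_mul_sum, Fintype.sum_prod_type]
    refine Finset.sum_congr rfl fun i _ => Finset.sum_congr rfl fun j _ => ?_
    push_cast
    ring

/-- the abc inequality at sparse triples -/
theorem abc_sparse (S : Finset ℕ) (hS : ∀ p ∈ S, p.Prime) (l m : ℕ) (B ε : ℝ) (hε : 0 < ε) :
    ∃ (δ C : ℝ), 0 < δ ∧ 0 < C ∧ ∀ (a b c : ℕ), 0 < a → 0 < b → a.Coprime b → a + b = c →
      ∀ (ρ : ℕ) (t : ℚ), 0 < ρ → (ρ : ℚ) ^ m = a * b * c * t →
      IsSparse S l (B * (c : ℝ) ^ δ) a → IsSparse S l (B * (c : ℝ) ^ δ) b →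
      IsSparse S l (B * (c : ℝ) ^ δ) ρ → IsSparse S l (B * (c : ℝ) ^ δ) t →
      (c : ℝ) ≤ C * (ρ : ℝ) ^ (1 + ε) := by
  obtain ⟨δ, C, hδ, hmain⟩ := Pool.Agent.Y724.T4.abq_core ℚ (Module.finrank_self ℚ) S hS l m B ε hε
  refine ⟨δ, Real.exp C, hδ, Real.exp_pos _, ?_⟩
  intro a b c ha hb hab hsum ρ t hρ ht h1 h2 h3 h4
  have h5 := hmain a b c ha hb hab hsum ρ t hρ ht (fun i => by
    fin_cases i
    · exact h1
    · exact h2
    · exact h3
    · exact h4)
  have hc : (0 : ℝ) < c := by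
    have : 0 < c := by omega
    exact_mod_cast this
  have hρR : (0 : ℝ) < ρ := by exact_mod_cast hρ
  have h6 := Real.exp_le_exp.2 h5
  rw [Real.exp_log hc, Real.exp_add, mul_comm (1 + ε), Real.exp_mul, Real.exp_log hρR, mul_comm] at h6
  exact h6

/-- real number estimate: from the abc inequality to the lower bound for `D` -/
theorem lower_bound {C ε c x y D : ℝ} (hC : 0 < C) (hε : 0 < ε) (hc : 1 ≤ c) (hx : 0 < x)
    (hy : 0 < y) (hD : 0 < D) (hxc : x ^ (3 : ℕ) ≤ c) (hyc : y ^ (2 : ℕ) ≤ c)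
    (h : c ≤ C * (x * y * D) ^ (1 + ε)) :
    C ^ (-(1 / (1 + ε))) * c ^ (1 / 6 - ε) ≤ D := by
  have hc0 : 0 < c := by linarith
  have h1 : x ≤ c ^ (1 / 3 : ℝ) := by
    have h2 := Real.rpow_le_rpow (by positivity) hxc (by norm_num : (0 : ℝ) ≤ 1 / 3)
    have h3 : (x ^ (3 : ℕ)) ^ (1 / 3 : ℝ) = x := by
      rw [← Real.rpow_natCast, ← Real.rpow_mul hx.le]
      norm_num
    linarith
  have h2 : y ≤ c ^ (1 / 2 : ℝ) := by
    have h2 := Real.rpow_le_rpow (by positivity) hyc (by norm_num : (0 : ℝ) ≤ 1 / 2)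
    have h3 : (y ^ (2 : ℕ)) ^ (1 / 2 : ℝ) = y := by
      rw [← Real.rpow_natCast, ← Real.rpow_mul hy.le]
      norm_num
    linarith
  have h3 : x * y * D ≤ c ^ (5 / 6 : ℝ) * D := by
    have h4 : x * y ≤ c ^ (1 / 3 : ℝ) * c ^ (1 / 2 : ℝ) := mul_le_mul h1 h2 hy.le (by positivity)
    rw [← Real.rpow_add hc0] at h4
    norm_num at h4
    exact mul_le_mul_of_nonneg_right h4 hD.le
  have hpos : 0 < 1 + ε := by linarith
  have h4 : c ^ (1 / (1 + ε)) ≤ C ^ (1 / (1 + ε)) * (c ^ (5 / 6 : ℝ) * D) := by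
    have h5 := Real.rpow_le_rpow hc0.le h (by positivity : (0 : ℝ) ≤ 1 / (1 + ε))
    rw [Real.mul_rpow hC.le (by positivity), ← Real.rpow_mul (by positivity),
      mul_one_div_cancel hpos.ne', Real.rpow_one] at h5
    exact h5.trans (mul_le_mul_of_nonneg_left h3 (by positivity))
  have h5 : c ^ (1 / 6 - ε) * c ^ (5 / 6 : ℝ) ≤ c ^ (1 / (1 + ε)) := by
    rw [← Real.rpow_add hc0]
    refine Real.rpow_le_rpow_of_exponent_le hc ?_
    rw [le_div_iff₀ hpos]
    nlinarith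
  have h6 : c ^ (1 / 6 - ε) * c ^ (5 / 6 : ℝ) ≤
      (C ^ (1 / (1 + ε)) * D) * c ^ (5 / 6 : ℝ) := by
    refine (h5.trans h4).trans (le_of_eq ?_)
    ring
  have h7 : c ^ (1 / 6 - ε) ≤ C ^ (1 / (1 + ε)) * D :=
    le_of_mul_le_mul_right h6 (by positivity)
  rw [Real.rpow_neg hC.le, inv_mul_le_iff₀ (by positivity)]
  exact h7

/-- positive coprime sparse `x`, `y` -/
theorem main_pos (S : Finset ℕ) (hS : ∀ p ∈ S, p.Prime) (l : ℕ) (B ε : ℝ) (hB : 1 ≤ B)
    (hε : 0 < ε) :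
    ∃ (δ C : ℝ), 0 < δ ∧ 0 < C ∧ ∀ (x y D : ℕ), 0 < x → 0 < y → 0 < D → x.Coprime y →
      (y ^ 2 = x ^ 3 + D ∨ x ^ 3 = y ^ 2 + D) →
      IsSparse S l (B * ((max x y : ℕ) : ℝ) ^ δ) x → IsSparse S l (B * ((max x y : ℕ) : ℝ) ^ δ) y →
      C * ((max (x ^ 3) (y ^ 2) : ℕ) : ℝ) ^ (1 / 6 - ε) ≤ D := by
  set d : ℕ := l * l + l * l * l with hd
  set L : ℕ := l * l + l * l * l + d + l * l * d + l * (d * d) with hL
  obtain ⟨δ, C, hδ, hC, hmain⟩ := abc_sparse S hS L 3 (B ^ 7) ε hε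
  refine ⟨δ / 7, C ^ (-(1 / (1 + ε))), by positivity, by positivity, ?_⟩
  intro x y D hx hy hD hxy hcase hsx hsy
  set M : ℝ := ((max x y : ℕ) : ℝ) with hM
  set c : ℕ := max (x ^ 3) (y ^ 2) with hc
  have hM1 : 1 ≤ M := by
    have : 1 ≤ max x y := le_max_of_le_left hx
    exact Nat.one_le_cast.2 this
  have hx3 : x ≤ x ^ 3 := Nat.le_self_pow (by norm_num) x
  have hy2 : y ≤ y ^ 2 := Nat.le_self_pow (by norm_num) y
  have hMc : M ≤ (c : ℝ) := by
    have : max x y ≤ c := max_le_max hx3 hy2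
    exact Nat.cast_le.2 this
  have hc1 : 1 ≤ (c : ℝ) := hM1.trans hMc
  set R : ℝ := B * M ^ (δ / 7) with hR
  have hMδ : 1 ≤ M ^ (δ / 7) := Real.one_le_rpow hM1 (by positivity)
  have hR1 : 1 ≤ R := by
    rw [hR]
    nlinarith
  have hR0 : 0 ≤ R := by linarith
  have hR7 : R ^ 7 ≤ B ^ 7 * (c : ℝ) ^ δ := by
    rw [hR, mul_pow]
    refine mul_le_mul_of_nonneg_left ?_ (by positivity)
    rw [← Real.rpow_natCast, ← Real.rpow_mul (by linarith)]
    have : δ / 7 * ((7 : ℕ) : ℝ) = δ := by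
      push_cast
      ring
    rw [this]
    exact Real.rpow_le_rpow (by linarith) hMc hδ.le
  have hT0 : 0 ≤ B ^ 7 * (c : ℝ) ^ δ := le_trans (by positivity) hR7
  -- powers of `R`
  have hpow : ∀ n : ℕ, n ≤ 7 → R ^ n ≤ B ^ 7 * (c : ℝ) ^ δ := fun n hn =>
    (pow_le_pow_right₀ hR1 hn).trans hR7
  have e2 : IsSparse S (l * l) (R ^ 2) ((y : ℚ) * y) := by
    have := IsSparse.mul hS hR0 hR0 hsy hsy
    rwa [← pow_two R] at this
  have e3 : IsSparse S (l * l * l) (R ^ 3) ((x : ℚ) * x * x) := by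
    have := IsSparse.mul hS (mul_nonneg hR0 hR0) hR0 (IsSparse.mul hS hR0 hR0 hsx hsx) hsx
    have h : R * R * R = R ^ 3 := by ring
    rwa [h] at this
  have h23 : R ^ 2 ≤ R ^ 3 := pow_le_pow_right₀ hR1 (by norm_num)
  have eD : IsSparse S d (R ^ 3) (D : ℚ) := by
    have e2' := e2.mono le_rfl h23 (by positivity)
    have f1 := IsSparse.add (by positivity) e2' e3.neg
    have f2 := f1.neg
    rcases hcase with h | h
    · have : ((D : ℕ) : ℚ) = (y : ℚ) * y + -((x : ℚ) * x * x) := by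
        have h' : (y : ℚ) ^ 2 = (x : ℚ) ^ 3 + D := by exact_mod_cast h
        linear_combination -h'
      rw [this]
      exact f1
    · have : ((D : ℕ) : ℚ) = -((y : ℚ) * y + -((x : ℚ) * x * x)) := by
        have h' : (x : ℚ) ^ 3 = (y : ℚ) ^ 2 + D := by exact_mod_cast h
        linear_combination -h'
      rw [this]
      exact f2
  have eρ : IsSparse S (l * l * d) (R ^ 5) ((x : ℚ) * y * D) := by
    have := IsSparse.mul hS (mul_nonneg hR0 hR0) (by positivity) (IsSparse.mul hS hR0 hR0 hsx hsy) eD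
    have h : R * R * R ^ 3 = R ^ 5 := by ring
    rwa [h] at this
  have et : IsSparse S (l * (d * d)) (R ^ 7) ((y : ℚ) * (D * D)) := by
    have := IsSparse.mul hS hR0 (by positivity) hsy (IsSparse.mul hS (by positivity) (by positivity) eD eD)
    have h : R * (R ^ 3 * R ^ 3) = R ^ 7 := by ring
    rwa [h] at this
  have g2 : IsSparse S L (B ^ 7 * (c : ℝ) ^ δ) ((y : ℚ) * y) :=
    e2.mono (by omega) (hpow 2 (by norm_num)) hT0
  have g3 : IsSparse S L (B ^ 7 * (c : ℝ) ^ δ) ((x : ℚ) * x * x) :=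
    e3.mono (by omega) (hpow 3 (by norm_num)) hT0
  have gD : IsSparse S L (B ^ 7 * (c : ℝ) ^ δ) (D : ℚ) :=
    eD.mono (by omega) (hpow 3 (by norm_num)) hT0
  have gρ : IsSparse S L (B ^ 7 * (c : ℝ) ^ δ) ((x : ℚ) * y * D) :=
    eρ.mono (by omega) (hpow 5 (by norm_num)) hT0
  have gt : IsSparse S L (B ^ 7 * (c : ℝ) ^ δ) ((y : ℚ) * (D * D)) :=
    et.mono (by omega) (hpow 7 le_rfl) hT0
  have hcop : (x ^ 3).Coprime (y ^ 2) := Nat.Coprime.pow _ _ hxy
  have hle : (c : ℝ) ≤ C * ((x : ℝ) * y * D) ^ (1 + ε) := by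
    have hρ : (((x * y * D : ℕ)) : ℝ) = (x : ℝ) * y * D := by push_cast; ring
    have hρq : (((x * y * D : ℕ)) : ℚ) = (x : ℚ) * y * D := by push_cast; ring
    rw [← hρ]
    rcases hcase with h | h
    · have hcc : c = y ^ 2 := max_eq_right (by omega)
      have hab : (x ^ 3).Coprime D := by
        rw [h] at hcop
        exact (Nat.coprime_self_add_right).1 hcop
      refine hmain (x ^ 3) D c (by positivity) hD hab (by rw [hcc, h]) (x * y * D)
        ((y : ℚ) * (D * D)) (by positivity) ?_ ?_ gD ?_ gt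
      · rw [hcc, hρq]
        push_cast
        ring
      · have : (((x ^ 3 : ℕ)) : ℚ) = (x : ℚ) * x * x := by push_cast; ring
        rw [this]
        exact g3
      · rw [hρq]
        exact gρ
    · have hcc : c = x ^ 3 := max_eq_left (by omega)
      have hab : (y ^ 2).Coprime D := by
        have h2 := hcop.symm
        rw [h] at h2
        exact (Nat.coprime_self_add_right).1 h2
      refine hmain (y ^ 2) D c (by positivity) hD hab (by rw [hcc, h]) (x * y * D)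
        ((y : ℚ) * (D * D)) (by positivity) ?_ ?_ gD ?_ gt
      · rw [hcc, hρq]
        push_cast
        ring
      · have : (((y ^ 2 : ℕ)) : ℚ) = (y : ℚ) * y := by push_cast; ring
        rw [this]
        exact g2
      · rw [hρq]
        exact gρ
  have hxR : (0 : ℝ) < x := by exact_mod_cast hx
  have hyR : (0 : ℝ) < y := by exact_mod_cast hy
  have hDR : (0 : ℝ) < D := by exact_mod_cast hD
  refine lower_bound hC hε hc1 hxR hyR hDR ?_ ?_ hle
  · have : x ^ 3 ≤ c := le_max_left _ _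
    exact_mod_cast this
  · have : y ^ 2 ≤ c := le_max_right _ _
    exact_mod_cast this

/-- **Main theorem.** For every finite set `S` of primes, all `l`, all real `B` and all `ε > 0` there
are `δ > 0` and `C > 0` such that `|y ^ 2 - x ^ 3| > C |x| ^ (1 / 2 - ε)` and
`|y ^ 2 - x ^ 3| > C |y| ^ (1 / 3 - ε)` for all coprime integers `x`, `y` with `y ^ 2 ≠ x ^ 3` that are
sums of `l` `S`-units with integer coefficients of absolute value at most `B max(|x|, |y|) ^ δ`. -/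
theorem result (S : Finset ℕ) (hS : ∀ p ∈ S, p.Prime) (l : ℕ) (B ε : ℝ) (hε : 0 < ε) :
    ∃ (δ C : ℝ), 0 < δ ∧ 0 < C ∧ ∀ (x y : ℤ), IsCoprime x y → y ^ 2 ≠ x ^ 3 →
      IsSparse S l (B * ((max |x| |y| : ℤ) : ℝ) ^ δ) x →
      IsSparse S l (B * ((max |x| |y| : ℤ) : ℝ) ^ δ) y →
      C * ((|x| : ℤ) : ℝ) ^ (1 / 2 - ε) < ((|y ^ 2 - x ^ 3| : ℤ) : ℝ) ∧
      C * ((|y| : ℤ) : ℝ) ^ (1 / 3 - ε) < ((|y ^ 2 - x ^ 3| : ℤ) : ℝ) := by
  set ε₀ : ℝ := min ε (1 / 3) with hε₀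
  have hε₀0 : 0 < ε₀ := lt_min hε (by norm_num)
  have hε₀1 : ε₀ ≤ ε := min_le_left _ _
  have hε₀2 : ε₀ ≤ 1 / 3 := min_le_right _ _
  obtain ⟨δ, C, hδ, hC, hmain⟩ := main_pos S hS l (max B 1) (ε₀ / 3) (le_max_right _ _)
    (by positivity)
  refine ⟨δ, min C 1 / 2, hδ, by positivity, ?_⟩
  intro x y hxy hne hsx hsy
  set D : ℕ := (y ^ 2 - x ^ 3).natAbs with hD
  have hDZ : |y ^ 2 - x ^ 3| = (D : ℤ) := Int.abs_eq_natAbs _
  have hDpos : 0 < D := Int.natAbs_pos.2 (sub_ne_zero.2 hne)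
  have hXZ : |x| = (x.natAbs : ℤ) := Int.abs_eq_natAbs _
  have hYZ : |y| = (y.natAbs : ℤ) := Int.abs_eq_natAbs _
  rw [hDZ, hXZ, hYZ]
  have hD1 : (1 : ℝ) ≤ ((D : ℤ) : ℝ) := by exact_mod_cast hDpos
  -- reduction to non-strict inequalities without the factor `1 / 2`
  have hred : ∀ T : ℝ, min C 1 * T ≤ ((D : ℤ) : ℝ) → min C 1 / 2 * T < ((D : ℤ) : ℝ) := by
    intro T hT
    have : min C 1 / 2 * T = (min C 1 * T) / 2 := by ring
    rw [this]
    linarith
  have hm0 : 0 ≤ min C 1 := by positivity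
  have hm1 : min C 1 ≤ 1 := min_le_right _ _
  have hm2 : min C 1 ≤ C := min_le_left _ _
  -- the trivial bound
  have htriv : ∀ (z : ℕ) (e : ℝ), e ≤ 1 → (z : ℝ) ≤ ((D : ℤ) : ℝ) →
      min C 1 * ((z : ℤ) : ℝ) ^ e ≤ ((D : ℤ) : ℝ) := by
    intro z e he hz
    have h1 : ((z : ℤ) : ℝ) ^ e ≤ ((D : ℤ) : ℝ) := by
      rcases Nat.eq_zero_or_pos z with rfl | h0
      · simp only [Nat.cast_zero, Int.cast_zero]
        by_cases he0 : e = 0
        · rw [he0, Real.rpow_zero]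
          exact hD1
        · rw [Real.zero_rpow he0]
          linarith
      · have h2 : (1 : ℝ) ≤ ((z : ℤ) : ℝ) := by exact_mod_cast h0
        calc ((z : ℤ) : ℝ) ^ e ≤ ((z : ℤ) : ℝ) ^ (1 : ℝ) :=
              Real.rpow_le_rpow_of_exponent_le h2 he
          _ = (z : ℝ) := by rw [Real.rpow_one]; norm_cast
          _ ≤ _ := hz
    have h3 : 0 ≤ ((z : ℤ) : ℝ) ^ e := Real.rpow_nonneg (by positivity) _
    nlinarith
  by_cases hx : 0 < x ∧ y ≠ 0
  · obtain ⟨hx, hy⟩ := hx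
    set X : ℕ := x.natAbs with hX
    set Y : ℕ := y.natAbs with hY
    have hXpos : 0 < X := Int.natAbs_pos.2 hx.ne'
    have hYpos : 0 < Y := Int.natAbs_pos.2 hy
    have hxX : x = (X : ℤ) := (Int.natAbs_of_nonneg hx.le).symm
    have hy2 : y ^ 2 = (Y : ℤ) ^ 2 := (Int.natAbs_sq y).symm
    have hcop : X.Coprime Y := Int.isCoprime_iff_gcd_eq_one.1 hxy
    have hcase : Y ^ 2 = X ^ 3 + D ∨ X ^ 3 = Y ^ 2 + D := by
      have h1 : (D : ℤ) = |(Y : ℤ) ^ 2 - (X : ℤ) ^ 3| := by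
        rw [← hDZ, hy2, hxX]
      rcases le_total 0 ((Y : ℤ) ^ 2 - (X : ℤ) ^ 3) with h | h
      · left
        rw [abs_of_nonneg h] at h1
        zify
        linarith
      · right
        rw [abs_of_nonpos h] at h1
        zify
        linarith
    have hM : ((max |x| |y| : ℤ) : ℝ) = ((max X Y : ℕ) : ℝ) := by
      rw [hXZ, hYZ]
      push_cast
      rfl
    have hM1 : (0 : ℝ) ≤ ((max X Y : ℕ) : ℝ) ^ δ := by positivity
    have hsx' : IsSparse S l (max B 1 * ((max X Y : ℕ) : ℝ) ^ δ) (X : ℚ) := by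
      rw [hM] at hsx
      have h2 : ((x : ℤ) : ℚ) = (X : ℚ) := by
        rw [hxX]
        push_cast
        rfl
      rw [h2] at hsx
      exact hsx.mono le_rfl (mul_le_mul_of_nonneg_right (le_max_left _ _) hM1) (by positivity)
    have hsy' : IsSparse S l (max B 1 * ((max X Y : ℕ) : ℝ) ^ δ) (Y : ℚ) := by
      rw [hM] at hsy
      have h3 := hsy.mono le_rfl (mul_le_mul_of_nonneg_right (le_max_left B 1) hM1) (by positivity)
      rcases Int.natAbs_eq y with h | h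
      · have h5 : ((y : ℤ) : ℚ) = ((Y : ℤ) : ℚ) := congrArg _ h
        have h2 : ((y : ℤ) : ℚ) = (Y : ℚ) := h5.trans (Int.cast_natCast _)
        rw [h2] at h3
        exact h3
      · have h2 : (Y : ℚ) = -((y : ℤ) : ℚ) := by
          have h4 : (Y : ℤ) = -y := by
            rw [hY]
            omega
          have h5 : ((Y : ℤ) : ℚ) = ((-y : ℤ) : ℚ) := by rw [h4]
          push_cast at h5
          exact h5
        rw [h2]
        exact h3.neg
    have hfin := hmain X Y D hXpos hYpos hDpos hcop hcase hsx' hsy'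
    set c : ℝ := ((max (X ^ 3) (Y ^ 2) : ℕ) : ℝ) with hc
    have hXR : (1 : ℝ) ≤ X := by exact_mod_cast hXpos
    have hYR : (1 : ℝ) ≤ Y := by exact_mod_cast hYpos
    have hXc : (X : ℝ) ^ (3 : ℕ) ≤ c := by
      have : X ^ 3 ≤ max (X ^ 3) (Y ^ 2) := le_max_left _ _
      rw [hc]
      exact_mod_cast this
    have hYc : (Y : ℝ) ^ (2 : ℕ) ≤ c := by
      have : Y ^ 2 ≤ max (X ^ 3) (Y ^ 2) := le_max_right _ _
      rw [hc]
      exact_mod_cast this
    have hc0 : 0 ≤ c ^ (1 / 6 - ε₀ / 3) := Real.rpow_nonneg (by rw [hc]; positivity) _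
    have hfin' : min C 1 * c ^ (1 / 6 - ε₀ / 3) ≤ ((D : ℤ) : ℝ) := by
      refine (mul_le_mul_of_nonneg_right hm2 hc0).trans ?_
      refine hfin.trans (le_of_eq ?_)
      norm_cast
    have hexp : 0 ≤ 1 / 6 - ε₀ / 3 := by linarith
    refine ⟨hred _ (le_trans (mul_le_mul_of_nonneg_left ?_ hm0) hfin'),
      hred _ (le_trans (mul_le_mul_of_nonneg_left ?_ hm0) hfin')⟩
    · have h1 : (((X : ℤ) : ℝ)) = (X : ℝ) := by norm_cast
      rw [h1]
      calc (X : ℝ) ^ (1 / 2 - ε) ≤ (X : ℝ) ^ (((3 : ℕ) : ℝ) * (1 / 6 - ε₀ / 3)) := by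
            refine Real.rpow_le_rpow_of_exponent_le hXR ?_
            push_cast
            linarith
        _ = ((X : ℝ) ^ (3 : ℕ)) ^ (1 / 6 - ε₀ / 3) := by
            rw [Real.rpow_mul (by linarith), Real.rpow_natCast]
        _ ≤ _ := Real.rpow_le_rpow (by positivity) hXc hexp
    · have h1 : (((Y : ℤ) : ℝ)) = (Y : ℝ) := by norm_cast
      rw [h1]
      calc (Y : ℝ) ^ (1 / 3 - ε) ≤ (Y : ℝ) ^ (((2 : ℕ) : ℝ) * (1 / 6 - ε₀ / 3)) := by
            refine Real.rpow_le_rpow_of_exponent_le hYR ?_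
            push_cast
            linarith
        _ = ((Y : ℝ) ^ (2 : ℕ)) ^ (1 / 6 - ε₀ / 3) := by
            rw [Real.rpow_mul (by linarith), Real.rpow_natCast]
        _ ≤ _ := Real.rpow_le_rpow (by positivity) hYc hexp
  · -- the trivial cases
    have hDbig : (x.natAbs : ℤ) ≤ (D : ℤ) ∧ (y.natAbs : ℤ) ≤ (D : ℤ) := by
      rw [← hDZ, ← hXZ, ← hYZ]
      rcases not_and_or.1 hx with h | h
      · have hx0 : x ≤ 0 := not_lt.1 h
        have h1 : 0 ≤ -x := by linarith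
        have h2 : x ^ 3 = -((-x) ^ 3) := by ring
        have h3 : -x ≤ (-x) ^ 3 := by
          rcases eq_or_lt_of_le h1 with h0 | h0
          · rw [← h0]; norm_num
          · have h0' : 1 ≤ -x := h0
            nlinarith [mul_nonneg (by linarith : (0 : ℤ) ≤ -x - 1) h1,
              mul_nonneg (mul_nonneg (by linarith : (0 : ℤ) ≤ -x - 1) h1) h1]
        have h4 : |y| ≤ y ^ 2 := by
          rw [← sq_abs]
          have h5 := abs_nonneg y
          rcases eq_or_lt_of_le h5 with h0 | h0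
          · rw [← h0]; norm_num
          · have h0' : 1 ≤ |y| := h0
            nlinarith
        have h5 : 0 ≤ (-x) ^ 3 := pow_nonneg h1 3
        have h6 : 0 ≤ y ^ 2 := sq_nonneg y
        have h7 : |x| = -x := abs_of_nonpos hx0
        have h8 : |y ^ 2 - x ^ 3| = y ^ 2 + (-x) ^ 3 := by
          rw [h2, sub_neg_eq_add, abs_of_nonneg (by linarith)]
        rw [h8, h7]
        exact ⟨by linarith, by linarith⟩
      · have hy0 : y = 0 := not_not.1 h
        have hx1 : IsUnit x := by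
          rw [hy0] at hxy
          exact isCoprime_zero_right.1 hxy
        rcases Int.isUnit_iff.1 hx1 with h | h
        · rw [hy0, h]
          norm_num
        · rw [hy0, h]
          norm_num
    have k1 : (x.natAbs : ℝ) ≤ ((D : ℤ) : ℝ) := by
      have h : ((x.natAbs : ℤ) : ℝ) ≤ ((D : ℤ) : ℝ) := Int.cast_le.2 hDbig.1
      rwa [Int.cast_natCast] at h
    have k2 : (y.natAbs : ℝ) ≤ ((D : ℤ) : ℝ) := by
      have h : ((y.natAbs : ℤ) : ℝ) ≤ ((D : ℤ) : ℝ) := Int.cast_le.2 hDbig.2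
      rwa [Int.cast_natCast] at h
    exact ⟨hred _ (htriv _ _ (by linarith) k1), hred _ (htriv _ _ (by linarith) k2)⟩

end Pool.Agent.Results.MP_e734ed_nt.SparsePairs
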